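import Mathlib

/-!
Polygonal chains with strictly increasing second coordinates as graphs of functions of `y`.
-/

namespace Pool.Agent.W139.BD

/-- The point of the real plane given by a grid point. -/
def toPlane (p : ℤ × ℤ) : ℝ × ℝ := ((p.1 : ℝ), (p.2 : ℝ))

/-- The polygonal chain through the listed points: the union of the closed segments joining
consecutive points of the list. -/
def polyline : List (ℤ × ℤ) → Set (ℝ × ℝ)
  | [] => ∅
  | [p] => {toPlane p}
  | p :: q :: l => segment ℝ (toPlane p) (toPlane q) ∪ polyline (q :: l)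

/-- linear interpolation between `p` and `q`, constant below `p` -/
noncomputable def lin (p q : ℤ × ℤ) (y : ℝ) : ℝ :=
  p.1 + (q.1 - p.1) * ((max y p.2 - p.2) / (q.2 - p.2))

noncomputable def interp : List (ℤ × ℤ) → ℝ → ℝ
  | [], _ => 0
  | [p], _ => p.1
  | p :: q :: l, y => if y ≤ (q.2 : ℝ) then lin p q y else interp (q :: l) y

/-- strictly increasing second coordinates -/
abbrev Up (l : List (ℤ × ℤ)) : Prop := List.IsChain (fun p q : ℤ × ℤ => p.2 < q.2) l

theorem lin_low (p q : ℤ × ℤ) {y : ℝ} (h : y ≤ p.2) : lin p q y = p.1 := by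
  unfold lin
  rw [max_eq_right h, sub_self, zero_div, mul_zero, add_zero]

theorem lin_top {p q : ℤ × ℤ} (h : p.2 < q.2) : lin p q q.2 = q.1 := by
  have h' : (p.2 : ℝ) < q.2 := by exact_mod_cast h
  unfold lin
  rw [max_eq_left h'.le, div_self (by linarith)]
  ring

theorem lin_cont (p q : ℤ × ℤ) : Continuous (lin p q) := by
  unfold lin
  fun_prop

theorem interp_low (p : ℤ × ℤ) (l : List (ℤ × ℤ)) (h : Up (p :: l)) {y : ℝ} (hy : y ≤ p.2) :
    interp (p :: l) y = p.1 := by
  cases l with
  | nil => rfl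
  | cons q l =>
    have h1 : p.2 < q.2 := by
      rcases List.isChain_cons_cons.1 h with ⟨h1, -⟩
      exact h1
    have h' : (p.2 : ℝ) < q.2 := by exact_mod_cast h1
    unfold interp
    rw [if_pos (by linarith), lin_low _ _ hy]

theorem interp_cont (l : List (ℤ × ℤ)) (h : Up l) : Continuous (interp l) := by
  induction l with
  | nil => exact continuous_const
  | cons p l ih =>
    cases l with
    | nil => exact continuous_const
    | cons q l =>
      rcases List.isChain_cons_cons.1 h with ⟨h1, h2⟩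
      have : interp (p :: q :: l) = fun y => if y ≤ (q.2 : ℝ) then lin p q y else interp (q :: l) y := by
        funext y
        conv_lhs => unfold interp
      rw [this]
      refine Continuous.if_le (lin_cont p q) (ih h2) continuous_id continuous_const ?_
      intro y hy
      rw [hy, lin_top h1, interp_low q l h2 le_rfl]

theorem head_le_last : ∀ (l : List (ℤ × ℤ)) (_ : Up l) (hl : l ≠ []), ∀ p ∈ l,
    (l.head hl).2 ≤ p.2 ∧ p.2 ≤ (l.getLast hl).2
  | [], _, hl => absurd rfl hl
  | [a], _, _ => by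
      intro p hp
      rw [List.mem_singleton.1 hp]
      exact ⟨le_rfl, le_rfl⟩
  | a :: b :: l, h, _ => by
      rcases List.isChain_cons_cons.1 h with ⟨h1, h2⟩
      have ih := head_le_last (b :: l) h2 (List.cons_ne_nil _ _)
      intro p hp
      rcases List.mem_cons.1 hp with rfl | hp
      · refine ⟨le_rfl, ?_⟩
        rw [List.getLast_cons (List.cons_ne_nil _ _)]
        exact h1.le.trans (ih b List.mem_cons_self).2
      · rw [List.getLast_cons (List.cons_ne_nil _ _)]
        have := ih p hp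
        exact ⟨h1.le.trans this.1, this.2⟩

theorem interp_high : ∀ (l : List (ℤ × ℤ)) (_ : Up l) (hl : l ≠ []) {y : ℝ},
    ((l.getLast hl).2 : ℝ) ≤ y → interp l y = (l.getLast hl).1
  | [], _, hl, _, _ => absurd rfl hl
  | [a], _, _, _, _ => rfl
  | a :: b :: l, h, _, y, hy => by
      rcases List.isChain_cons_cons.1 h with ⟨h1, h2⟩
      rw [List.getLast_cons (List.cons_ne_nil _ _)] at hy ⊢
      have ih := interp_high (b :: l) h2 (List.cons_ne_nil _ _) hy
      have h3 := (head_le_last (b :: l) h2 (List.cons_ne_nil _ _) b List.mem_cons_self).2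
      have h3' : (b.2 : ℝ) ≤ ((b :: l).getLast (List.cons_ne_nil _ _)).2 := by exact_mod_cast h3
      unfold interp
      by_cases h4 : y ≤ b.2
      · have h5 : y = b.2 := le_antisymm h4 (by linarith)
        rw [if_pos h4, h5, lin_top h1, ← interp_low b l h2 le_rfl, ← h5, ih]
      · rw [if_neg h4, ih]

theorem lin_mem {p q : ℤ × ℤ} (h : p.2 < q.2) {y : ℝ} (h1 : (p.2 : ℝ) ≤ y) (h2 : y ≤ q.2) :
    (lin p q y, y) ∈ segment ℝ (toPlane p) (toPlane q) := by
  have h' : (p.2 : ℝ) < q.2 := by exact_mod_cast h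
  have h3 : (0 : ℝ) < q.2 - p.2 := by linarith
  refine ⟨(q.2 - y) / (q.2 - p.2), (y - p.2) / (q.2 - p.2), by apply div_nonneg <;> linarith,
    by apply div_nonneg <;> linarith, by field_simp; ring, ?_⟩
  unfold lin toPlane
  rw [max_eq_left h1]
  ext
  · simp
    field_simp
    ring
  · simp
    field_simp
    ring

theorem interp_mem : ∀ (l : List (ℤ × ℤ)) (_ : Up l) (hl : l ≠ []) {y : ℝ},
    ((l.head hl).2 : ℝ) ≤ y → y ≤ ((l.getLast hl).2 : ℝ) → (interp l y, y) ∈ polyline l
  | [], _, hl, _, _, _ => absurd rfl hl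
  | [a], _, _, y, h1, h2 => by
      have : y = a.2 := le_antisymm h2 h1
      subst this
      exact rfl
  | a :: b :: l, h, _, y, hy1, hy2 => by
      rcases List.isChain_cons_cons.1 h with ⟨h1, h2⟩
      rw [List.getLast_cons (List.cons_ne_nil _ _)] at hy2
      unfold interp polyline
      by_cases h4 : y ≤ b.2
      · rw [if_pos h4]
        exact Or.inl (lin_mem h1 hy1 h4)
      · rw [if_neg h4]
        exact Or.inr (interp_mem (b :: l) h2 (List.cons_ne_nil _ _) (not_le.1 h4).le hy2)

theorem interp_pt : ∀ (l : List (ℤ × ℤ)) (_ : Up l), ∀ p ∈ l, interp l p.2 = p.1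
  | [], _ => by simp
  | [a], _ => by
      intro p hp
      rw [List.mem_singleton.1 hp]
      rfl
  | a :: b :: l, h => by
      rcases List.isChain_cons_cons.1 h with ⟨h1, h2⟩
      intro p hp
      rcases List.mem_cons.1 hp with rfl | hp
      · exact interp_low p (b :: l) h le_rfl
      · have h3 := (head_le_last (b :: l) h2 (List.cons_ne_nil _ _) p hp).1
        have h3' : (b.2 : ℝ) ≤ p.2 := by exact_mod_cast h3
        have ih := interp_pt (b :: l) h2 p hp
        unfold interp
        by_cases h4 : (p.2 : ℝ) ≤ b.2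
        · have h5 : (p.2 : ℝ) = b.2 := le_antisymm h4 h3'
          rw [if_pos h4, h5, lin_top h1, ← interp_low b l h2 le_rfl, ← h5, ih]
        · rw [if_neg h4, ih]

theorem lin_between {p q : ℤ × ℤ} (h : p.2 < q.2) {y : ℝ} (h2 : y ≤ q.2) :
    min (p.1 : ℝ) q.1 ≤ lin p q y ∧ lin p q y ≤ max (p.1 : ℝ) q.1 := by
  have h' : (p.2 : ℝ) < q.2 := by exact_mod_cast h
  have h3 : (0 : ℝ) < q.2 - p.2 := by linarith
  have h4 : 0 ≤ (max y p.2 - p.2) / (q.2 - p.2) :=
    div_nonneg (by linarith [le_max_right y (p.2 : ℝ)]) h3.le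
  have h5 : (max y p.2 - p.2) / (q.2 - p.2) ≤ 1 := by
    rw [div_le_one h3]
    have : max y (p.2 : ℝ) ≤ q.2 := max_le h2 h'.le
    linarith
  unfold lin
  set t := (max y (p.2 : ℝ) - p.2) / (q.2 - p.2)
  rcases le_total (p.1 : ℝ) q.1 with h6 | h6
  · rw [min_eq_left h6, max_eq_right h6]
    constructor <;> nlinarith
  · rw [min_eq_right h6, max_eq_left h6]
    constructor <;> nlinarith

theorem interp_le : ∀ (l : List (ℤ × ℤ)) (_ : Up l) (_ : l ≠ []) (y : ℝ),
    (∃ p ∈ l, (p.1 : ℝ) ≤ interp l y) ∧ (∃ p ∈ l, interp l y ≤ (p.1 : ℝ))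
  | [], _, hl, _ => absurd rfl hl
  | [a], _, _, y => ⟨⟨a, by simp, le_rfl⟩, ⟨a, by simp, le_rfl⟩⟩
  | a :: b :: l, h, _, y => by
      rcases List.isChain_cons_cons.1 h with ⟨h1, h2⟩
      unfold interp
      by_cases h4 : y ≤ b.2
      · rw [if_pos h4]
        have h5 := lin_between h1 h4
        constructor
        · rcases le_total (a.1 : ℝ) b.1 with h6 | h6
          · exact ⟨a, by simp, by rw [min_eq_left h6] at h5; exact h5.1⟩
          · exact ⟨b, by simp, by rw [min_eq_right h6] at h5; exact h5.1⟩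
        · rcases le_total (a.1 : ℝ) b.1 with h6 | h6
          · exact ⟨b, by simp, by rw [max_eq_right h6] at h5; exact h5.2⟩
          · exact ⟨a, by simp, by rw [max_eq_left h6] at h5; exact h5.2⟩
      · rw [if_neg h4]
        obtain ⟨⟨p, hp, hp'⟩, ⟨q, hq, hq'⟩⟩ := interp_le (b :: l) h2 (List.cons_ne_nil _ _) y
        exact ⟨⟨p, List.mem_cons_of_mem _ hp, hp'⟩, ⟨q, List.mem_cons_of_mem _ hq, hq'⟩⟩

end Pool.Agent.W139.BD
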