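import Mathlib

/-!
Systems of upward curves between sources and sinks (drawings of bipartite DAGs): elementary parity
arguments for 4-cycles.
-/

namespace Pool.Agent.W139.BD

open Filter Topology

/-- A system of pairwise disjoint upward curves; the curve of the edge `u → v` is
`{(F u v y, y) : Y u ≤ y ≤ Y v}`. -/
structure Sys (V : Type) where
  X : V → ℝ
  Y : V → ℝ
  E : V → V → Prop
  F : V → V → ℝ → ℝ
  pts : V → V → List (ℤ × ℤ)
  lt : ∀ u v, E u v → Y u < Y v
  cont : ∀ u v, E u v → Continuous (F u v)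
  low : ∀ u v, E u v → ∀ y, y ≤ Y u → F u v y = X u
  high : ∀ u v, E u v → ∀ y, Y v ≤ y → F u v y = X v
  ne : ∀ u v u' v', E u v → E u' v' → (u ≠ u' ∨ v ≠ v') → ∀ y, Y u ≤ y → y ≤ Y v → Y u' ≤ y →
    y ≤ Y v' → F u v y = F u' v' y → (u = u' ∧ y = Y u) ∨ (v = v' ∧ y = Y v)
  free : ∀ u v w z, E u v → E z w → Y u ≤ Y w → Y w ≤ Y v → F u v (Y w) = X w → w = u ∨ w = v
  pmem : ∀ u v, E u v → ∀ p ∈ pts u v, Y u ≤ p.2 ∧ (p.2 : ℝ) ≤ Y v ∧ F u v p.2 = p.1
  ple : ∀ u v, E u v → ∀ y, ∃ p ∈ pts u v, (p.1 : ℝ) ≤ F u v y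
  pge : ∀ u v, E u v → ∀ y, ∃ p ∈ pts u v, F u v y ≤ (p.1 : ℝ)
  pbot : ∀ u v, E u v → ∃ p ∈ pts u v, (p.2 : ℝ) = Y u
  ptop : ∀ u v, E u v → ∃ p ∈ pts u v, (p.2 : ℝ) = Y v

/-- indicator of `p < q`, modulo 2 -/
noncomputable def chi (p q : ℝ) : ZMod 2 := if p < q then 1 else 0

theorem z2 (x : ZMod 2) : x + x = 0 := CharTwo.add_self_eq_zero x

theorem z2_ne {x y : ZMod 2} (h : x + y = 1) : x ≠ y := by
  rintro rfl
  rw [z2] at h
  exact absurd h (by decide)

theorem z2_cases (x : ZMod 2) : x = 0 ∨ x = 1 := by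
  revert x; decide

theorem chi_loc {φ ψ : ℝ → ℝ} (hφ : Continuous φ) (hψ : Continuous ψ) {y₀ : ℝ} (h : φ y₀ ≠ ψ y₀) :
    ∀ᶠ y in 𝓝 y₀, chi (φ y) (ψ y) = chi (φ y₀) (ψ y₀) := by
  rcases lt_or_gt_of_ne h with h | h
  · filter_upwards [hφ.continuousAt.eventually_lt hψ.continuousAt h] with y hy
    unfold chi
    rw [if_pos hy, if_pos h]
  · filter_upwards [hψ.continuousAt.eventually_lt hφ.continuousAt h] with y hy
    unfold chi
    rw [if_neg hy.le.not_gt, if_neg h.le.not_gt]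

namespace Sys

variable {V : Type} (S : Sys V)

/-- the number (mod 2) of curves of the path `a → t ← c` to the left of the point `(x, y)` -/
noncomputable def N (a c t : V) (x y : ℝ) : ZMod 2 := chi (S.F a t y) x + chi (S.F c t y) x

/-- the number (mod 2) of curves of the cycle `a → b ← c → d ← a` to the left of `(x, y)` -/
noncomputable def g (a c b d : V) (x y : ℝ) : ZMod 2 := S.N a c b x y + S.N a c d x y

theorem N_high {a c t : V} (ha : S.E a t) (hc : S.E c t) {x y : ℝ} (hy : S.Y t ≤ y) :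
    S.N a c t x y = 0 := by
  unfold N
  rw [S.high _ _ ha _ hy, S.high _ _ hc _ hy, z2]

/-- If the curve `φ` does not meet the active curves `a → t`, `c → t` at the level `y₀`, which is
above `a` and `c`, then `N` is locally constant. -/
theorem N_loc {a c t : V} (ha : S.E a t) (hc : S.E c t) {φ : ℝ → ℝ} (hφ : Continuous φ) {y₀ : ℝ}
    (h1 : y₀ ≤ S.Y t → S.F a t y₀ ≠ φ y₀) (h2 : y₀ ≤ S.Y t → S.F c t y₀ ≠ φ y₀) :
    ∀ᶠ y in 𝓝 y₀, S.N a c t (φ y) y = S.N a c t (φ y₀) y₀ := by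
  rcases le_or_gt y₀ (S.Y t) with h | h
  · filter_upwards [chi_loc (S.cont _ _ ha) hφ (h1 h), chi_loc (S.cont _ _ hc) hφ (h2 h)] with y e1 e2
    unfold N
    rw [e1, e2]
  · filter_upwards [eventually_gt_nhds h] with y hy
    rw [S.N_high ha hc hy.le, S.N_high ha hc h.le]

theorem g_loc {a c b d : V} (hab : S.E a b) (hcb : S.E c b) (had : S.E a d) (hcd : S.E c d)
    {φ : ℝ → ℝ} (hφ : Continuous φ) {y₀ : ℝ}
    (h : ∀ s t, (s = a ∨ s = c) → (t = b ∨ t = d) → S.Y s ≤ y₀ → y₀ ≤ S.Y t → S.F s t y₀ ≠ φ y₀) :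
    ∀ᶠ y in 𝓝 y₀, S.g a c b d (φ y) y = S.g a c b d (φ y₀) y₀ := by
  have lab := S.lt _ _ hab
  have lcb := S.lt _ _ hcb
  have lad := S.lt _ _ had
  have lcd := S.lt _ _ hcd
  by_cases hs : S.Y a ≤ y₀ ∧ S.Y c ≤ y₀
  · obtain ⟨ha, hc⟩ := hs
    filter_upwards [S.N_loc hab hcb hφ (fun h' => h a b (Or.inl rfl) (Or.inl rfl) ha h')
      (fun h' => h c b (Or.inr rfl) (Or.inl rfl) hc h'),
      S.N_loc had hcd hφ (fun h' => h a d (Or.inl rfl) (Or.inr rfl) ha h')
      (fun h' => h c d (Or.inr rfl) (Or.inr rfl) hc h')] with y e1 e2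
    unfold g
    rw [e1, e2]
  · have hlt : y₀ < S.Y b ∧ y₀ < S.Y d := by
      rcases not_and_or.1 hs with h' | h'
      · push Not at h'
        exact ⟨h'.trans lab, h'.trans lad⟩
      · push Not at h'
        exact ⟨h'.trans lcb, h'.trans lcd⟩
    have key : ∀ s, (s = a ∨ s = c) → S.E s b → S.E s d →
        ∀ᶠ y in 𝓝 y₀, chi (S.F s b y) (φ y) + chi (S.F s d y) (φ y)
          = chi (S.F s b y₀) (φ y₀) + chi (S.F s d y₀) (φ y₀) := by
      intro s hs' e1 e2
      rcases le_or_gt (S.Y s) y₀ with h3 | h3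
      · filter_upwards [chi_loc (S.cont _ _ e1) hφ (h s b hs' (Or.inl rfl) h3 hlt.1.le),
          chi_loc (S.cont _ _ e2) hφ (h s d hs' (Or.inr rfl) h3 hlt.2.le)] with y i1 i2
        rw [i1, i2]
      · filter_upwards [eventually_lt_nhds h3] with y hy
        rw [S.low _ _ e1 _ hy.le, S.low _ _ e2 _ hy.le, S.low _ _ e1 _ h3.le, S.low _ _ e2 _ h3.le,
          z2, z2]
    filter_upwards [key a (Or.inl rfl) hab had, key c (Or.inr rfl) hcb hcd] with y e1 e2
    have : ∀ y, S.g a c b d (φ y) y = (chi (S.F a b y) (φ y) + chi (S.F a d y) (φ y))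
        + (chi (S.F c b y) (φ y) + chi (S.F c d y) (φ y)) := by
      intro y
      unfold g N
      ring
    rw [this y, this y₀, e1, e2]

theorem g_const {a c b d : V} (hab : S.E a b) (hcb : S.E c b) (had : S.E a d) (hcd : S.E c d)
    {φ : ℝ → ℝ} (hφ : Continuous φ) {T : Set ℝ} (hT : IsPreconnected T)
    (h : ∀ y ∈ T, ∀ s t, (s = a ∨ s = c) → (t = b ∨ t = d) → S.Y s ≤ y → y ≤ S.Y t →
      S.F s t y ≠ φ y) {y z : ℝ} (hy : y ∈ T) (hz : z ∈ T) :
    S.g a c b d (φ y) y = S.g a c b d (φ z) z := by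
  refine hT.constant (f := fun y => S.g a c b d (φ y) y) ?_ hy hz
  intro y₀ hy₀
  have := S.g_loc hab hcb had hcd hφ (h y₀ hy₀)
  apply ContinuousAt.continuousWithinAt
  exact (tendsto_const_nhds.congr' (this.mono fun y hy => hy.symm))

/-- the four edges of the cycle on the sources `a, c` and the sinks `b, d` -/
structure Cyc (a c b d : V) : Prop where
  ab : S.E a b
  cb : S.E c b
  ad : S.E a d
  cd : S.E c d

theorem Cyc.edge {a c b d : V} (h : S.Cyc a c b d) {s t : V} (hs : s = a ∨ s = c)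
    (ht : t = b ∨ t = d) : S.E s t := by
  rcases hs with rfl | rfl <;> rcases ht with rfl | rfl
  exacts [h.ab, h.ad, h.cb, h.cd]

/-- along an edge disjoint from the cycle the parity does not change -/
theorem g_edge {a c b d u v : V} (h : S.Cyc a c b d) (huv : S.E u v) (ua : u ≠ a) (uc : u ≠ c)
    (vb : v ≠ b) (vd : v ≠ d) {y z : ℝ} (hy : y ∈ Set.Icc (S.Y u) (S.Y v))
    (hz : z ∈ Set.Icc (S.Y u) (S.Y v)) :
    S.g a c b d (S.F u v y) y = S.g a c b d (S.F u v z) z := by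
  refine S.g_const h.ab h.cb h.ad h.cd (S.cont _ _ huv) isPreconnected_Icc ?_ hy hz
  intro y hy s t hs ht h1 h2 he
  have hst := h.edge S hs ht
  have hsu : s ≠ u := by rcases hs with rfl | rfl; exacts [ua.symm, uc.symm]
  have htv : t ≠ v := by rcases ht with rfl | rfl; exacts [vb.symm, vd.symm]
  rcases S.ne s t u v hst huv (Or.inl hsu) y h1 h2 hy.1 hy.2 he with h3 | h3
  · exact hsu h3.1
  · exact htv h3.1

/-- the parity of a vertex -/
noncomputable def I (a c b d w : V) : ZMod 2 := S.g a c b d (S.X w) (S.Y w)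

theorem I_edge {a c b d u v : V} (h : S.Cyc a c b d) (huv : S.E u v) (ua : u ≠ a) (uc : u ≠ c)
    (vb : v ≠ b) (vd : v ≠ d) : S.I a c b d u = S.I a c b d v := by
  have h1 := S.lt _ _ huv
  have := S.g_edge h huv ua uc vb vd (y := S.Y u) (z := S.Y v) ⟨le_refl _, h1.le⟩ ⟨h1.le, le_refl _⟩
  rw [S.low _ _ huv _ le_rfl, S.high _ _ huv _ le_rfl] at this
  exact this

theorem g_swap (a c b d : V) (x y : ℝ) : S.g a c b d x y = S.g a c d b x y := by
  unfold g; ring

/-- the attachment lemma -/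
theorem attach {a c b l l' h : V} (h1 : S.Cyc a c b l) (h2 : S.Cyc a c b l') (hb : S.E h b)
    (ha : h ≠ a) (hc : h ≠ c) (bl : b ≠ l) (bl' : b ≠ l') :
    S.I a c b l h + S.I a c b l' h = S.N a c l (S.X b) (S.Y b) + S.N a c l' (S.X b) (S.Y b) := by
  have lhb := S.lt _ _ hb
  have hne : ∀ s, (s = a ∨ s = c) → s ≠ h := by
    rintro s (rfl | rfl); exacts [ha.symm, hc.symm]
  -- the two parities are constant on [Y h, Y b)
  have const : ∀ l, S.Cyc a c b l → b ≠ l → ∀ y ∈ Set.Ico (S.Y h) (S.Y b),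
      S.I a c b l h = S.g a c b l (S.F h b y) y := by
    intro l hl hbl y hy
    have := S.g_const hl.ab hl.cb hl.ad hl.cd (S.cont _ _ hb)
      (isPreconnected_Ico (a := S.Y h) (b := S.Y b)) ?_ (y := S.Y h) (z := y) ⟨le_refl _, lhb⟩ hy
    · rw [S.low _ _ hb _ le_rfl] at this
      exact this
    · intro y hy s t hs ht i1 i2 he
      have hst := hl.edge S hs ht
      rcases S.ne s t h b hst hb (Or.inl (hne s hs)) y i1 i2 hy.1 hy.2.le he with h3 | h3
      · exact hne s hs h3.1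
      · have := hy.2
        rw [h3.2] at this
        rw [h3.1] at this
        exact lt_irrefl _ this
  -- the parities of the other paths are locally constant at b
  have loc : ∀ l, S.Cyc a c b l → b ≠ l →
      ∀ᶠ y in 𝓝 (S.Y b), S.N a c l (S.F h b y) y = S.N a c l (S.X b) (S.Y b) := by
    intro l hl hbl
    have h3 := S.N_loc hl.ad hl.cd (S.cont _ _ hb) (y₀ := S.Y b) ?_ ?_
    · rw [S.high _ _ hb _ le_rfl] at h3
      exact h3
    · intro h4 h5
      rw [S.high _ _ hb _ le_rfl] at h5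
      rcases S.free a l b a hl.ad hl.ab (S.lt _ _ hl.ab).le h4 h5 with h6 | h6
      · subst h6; exact lt_irrefl _ (S.lt _ _ hl.ab)
      · exact hbl h6
    · intro h4 h5
      rw [S.high _ _ hb _ le_rfl] at h5
      rcases S.free c l b c hl.cd hl.cb (S.lt _ _ hl.cb).le h4 h5 with h6 | h6
      · subst h6; exact lt_irrefl _ (S.lt _ _ hl.cb)
      · exact hbl h6
  have hev := ((loc l h1 bl).and (loc l' h2 bl')).filter_mono
    (nhdsWithin_le_nhds (s := Set.Iio (S.Y b)))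
  have hev2 : ∀ᶠ y in 𝓝[<] (S.Y b), y ∈ Set.Ico (S.Y h) (S.Y b) := Ico_mem_nhdsLT lhb
  obtain ⟨y, ⟨e1, e2⟩, hy⟩ := (hev.and hev2).exists
  rw [const l h1 bl y hy, const l' h2 bl' y hy]
  unfold g
  rw [e1, e2]
  have h0 := z2 (S.N a c b (S.F h b y) y)
  linear_combination h0

/-- two disjoint edges keep their order -/
theorem order {u v u' v' : V} (h : S.E u v) (h' : S.E u' v') (hu : u ≠ u') (hv : v ≠ v') {y z : ℝ}
    (y1 : S.Y u ≤ y) (y2 : y ≤ S.Y v) (y3 : S.Y u' ≤ y) (y4 : y ≤ S.Y v')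
    (z1 : S.Y u ≤ z) (z2 : z ≤ S.Y v) (z3 : S.Y u' ≤ z) (z4 : z ≤ S.Y v') :
    chi (S.F u v y) (S.F u' v' y) = chi (S.F u v z) (S.F u' v' z) := by
  have hpre : IsPreconnected (Set.Icc (max (S.Y u) (S.Y u')) (min (S.Y v) (S.Y v'))) :=
    isPreconnected_Icc
  refine hpre.constant (f := fun y => chi (S.F u v y) (S.F u' v' y)) ?_
    ⟨max_le y1 y3, le_min y2 y4⟩ ⟨max_le z1 z3, le_min z2 z4⟩
  intro y₀ hy₀
  have hy₁ := max_le_iff.1 hy₀.1
  have hy₂ := le_min_iff.1 hy₀.2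
  have hne : S.F u v y₀ ≠ S.F u' v' y₀ := by
    intro he
    rcases S.ne u v u' v' h h' (Or.inl hu) y₀ hy₁.1 hy₂.1 hy₁.2 hy₂.2 he with h3 | h3
    · exact hu h3.1
    · exact hv h3.1
  have := chi_loc (S.cont _ _ h) (S.cont _ _ h') hne
  apply ContinuousAt.continuousWithinAt
  exact (tendsto_const_nhds.congr' (this.mono fun y hy => hy.symm))

theorem chi_swap {p q : ℝ} (h : p ≠ q) : chi p q = 1 + chi q p := by
  unfold chi
  rcases lt_or_gt_of_ne h with h | h
  · rw [if_pos h, if_neg h.le.not_gt]; rfl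
  · rw [if_pos h, if_neg h.le.not_gt]; rfl

/-- exactly one of two paths on the same side is inside the other -/
theorem pair {a c i j : V} (hac : a ≠ c) (hij : i ≠ j) (h : S.Cyc a c i j)
    (hY : S.Y a ≤ S.Y c) :
    S.N a c i (S.X j) (S.Y j) + S.N a c j (S.X i) (S.Y i)
      = 1 + chi (S.F a i (S.Y c)) (S.X c) + chi (S.F a j (S.Y c)) (S.X c) := by
  wlog hle : S.Y i ≤ S.Y j generalizing i j
  · have := this hij.symm ⟨h.ad, h.cd, h.ab, h.cb⟩ (le_of_not_ge hle)
    rw [add_comm (S.N a c i (S.X j) (S.Y j)), this]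
    ring
  have l1 := S.lt _ _ h.ab
  have l2 := S.lt _ _ h.cb
  have l3 := S.lt _ _ h.ad
  have l4 := S.lt _ _ h.cd
  rw [S.N_high h.ab h.cb hle, zero_add]
  unfold N
  -- curves a → i and c → j
  have o1 := S.order h.ab h.cd hac hij (y := S.Y c) (z := S.Y i) hY l2.le le_rfl l4.le l1.le le_rfl
    l2.le hle
  -- curves a → j and c → i
  have o2 := S.order h.ad h.cb hac hij.symm (y := S.Y c) (z := S.Y i) hY l4.le le_rfl l2.le l1.le hle
    l2.le le_rfl
  rw [S.low _ _ h.cd _ le_rfl, S.high _ _ h.ab _ le_rfl] at o1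
  rw [S.low _ _ h.cb _ le_rfl, S.high _ _ h.cb _ le_rfl] at o2
  have hne : S.F c j (S.Y i) ≠ S.X i := by
    intro he
    rcases S.free c j i c h.cd h.cb l2.le hle he with h6 | h6
    · subst h6; exact lt_irrefl _ l2
    · exact hij h6
  rw [o1, o2, chi_swap hne]
  ring

/-- the six incidences of three paths between `a` and `c` have an odd sum -/
theorem theta' {a c b d e : V} (hac : a ≠ c) (bd : b ≠ d) (be : b ≠ e) (de : d ≠ e)
    (h1 : S.Cyc a c b d) (h2 : S.Cyc a c b e) (h3 : S.Cyc a c d e) (hY : S.Y a ≤ S.Y c) :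
    (S.N a c d (S.X b) (S.Y b) + S.N a c e (S.X b) (S.Y b))
      + (S.N a c b (S.X d) (S.Y d) + S.N a c e (S.X d) (S.Y d))
      + (S.N a c b (S.X e) (S.Y e) + S.N a c d (S.X e) (S.Y e)) = 1 := by
  have p1 := S.pair hac bd h1 hY
  have p2 := S.pair hac be h2 hY
  have p3 := S.pair hac de h3 hY
  have q1 := z2 (chi (S.F a b (S.Y c)) (S.X c))
  have q2 := z2 (chi (S.F a d (S.Y c)) (S.X c))
  have q3 := z2 (chi (S.F a e (S.Y c)) (S.X c))
  have q4 : (1 : ZMod 2) + 1 = 0 := by decide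
  linear_combination p1 + p2 + p3 + q1 + q2 + q3 + q4

theorem N_symm (a c t : V) (x y : ℝ) : S.N a c t x y = S.N c a t x y := by
  unfold N; ring

theorem theta {a c b d e : V} (hac : a ≠ c) (bd : b ≠ d) (be : b ≠ e) (de : d ≠ e)
    (h1 : S.Cyc a c b d) (h2 : S.Cyc a c b e) (h3 : S.Cyc a c d e) :
    (S.N a c d (S.X b) (S.Y b) + S.N a c e (S.X b) (S.Y b))
      + (S.N a c b (S.X d) (S.Y d) + S.N a c e (S.X d) (S.Y d))
      + (S.N a c b (S.X e) (S.Y e) + S.N a c d (S.X e) (S.Y e)) = 1 := by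
  rcases le_total (S.Y a) (S.Y c) with h | h
  · exact S.theta' hac bd be de h1 h2 h3 h
  · have := S.theta' hac.symm bd be de ⟨h1.cb, h1.ab, h1.cd, h1.ad⟩ ⟨h2.cb, h2.ab, h2.cd, h2.ad⟩
      ⟨h3.cb, h3.ab, h3.cd, h3.ad⟩ h
    simp only [S.N_symm a c]
    exact this

/-- **Separation.** If `h₁ → b` and `h₂ → d` and `h₁, h₂` have the same parity with respect to the
three cycles, then `h₁` and `e` are on different sides of the cycle `a b c d`. -/
theorem separate {a c b d e k l : V} (hac : a ≠ c) (bd : b ≠ d) (be : b ≠ e) (de : d ≠ e)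
    (h1 : S.Cyc a c b d) (h2 : S.Cyc a c b e) (h3 : S.Cyc a c d e)
    (hk : S.E k b) (hl : S.E l d) (ka : k ≠ a) (kc : k ≠ c) (la : l ≠ a) (lc : l ≠ c)
    (i1 : S.I a c b d k = S.I a c b d l) (i2 : S.I a c b e k = S.I a c b e l) :
    S.I a c b d k + S.I a c b d e = 1 := by
  have a1 := S.attach h1 h2 hk ka kc bd be
  have a2 := S.attach (l := b) (l' := e) ⟨h1.ad, h1.cd, h1.ab, h1.cb⟩ h3 hl la lc bd.symm de
  have t := S.theta hac bd be de h1 h2 h3
  have s1 : S.I a c d b l = S.I a c b d l := S.g_swap _ _ _ _ _ _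
  have e1 : S.I a c b d e = S.N a c b (S.X e) (S.Y e) + S.N a c d (S.X e) (S.Y e) := rfl
  have s3 : S.I a c b d l + S.I a c b e l + S.I a c d e l = 0 := by
    unfold I g
    have q1 := z2 (S.N a c b (S.X l) (S.Y l))
    have q2 := z2 (S.N a c d (S.X l) (S.Y l))
    have q3 := z2 (S.N a c e (S.X l) (S.Y l))
    linear_combination q1 + q2 + q3
  rw [← a1, ← a2, ← e1, s1, i1, i2] at t
  rw [i1]
  have q := z2 (S.I a c b d l)
  linear_combination t - s3

/-- growth of the extent to the left -/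
theorem grow_left {a c b d : V} {x y : ℝ} (hg : S.g a c b d x y = 1) :
    ∃ s t, (s = a ∨ s = c) ∧ (t = b ∨ t = d) ∧ S.F s t y < x := by
  by_contra hcon
  push Not at hcon
  have h0 : ∀ s t, (s = a ∨ s = c) → (t = b ∨ t = d) → chi (S.F s t y) x = 0 := by
    intro s t hs ht
    exact if_neg (hcon s t hs ht).not_gt
  have : S.g a c b d x y = 0 := by
    unfold g N
    rw [h0 a b (Or.inl rfl) (Or.inl rfl), h0 c b (Or.inr rfl) (Or.inl rfl),
      h0 a d (Or.inl rfl) (Or.inr rfl), h0 c d (Or.inr rfl) (Or.inr rfl)]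
    rfl
  rw [this] at hg
  exact absurd hg (by decide)

/-- growth of the extent to the right -/
theorem grow_right {a c b d : V} (h : S.Cyc a c b d) {x y : ℝ} (hg : S.g a c b d x y = 1)
    (hne : ∀ s t, (s = a ∨ s = c) → (t = b ∨ t = d) → S.Y s ≤ y → y ≤ S.Y t → S.F s t y ≠ x) :
    ∃ s t, (s = a ∨ s = c) ∧ (t = b ∨ t = d) ∧ x < S.F s t y := by
  by_contra hcon
  push Not at hcon
  have h1 : ∀ s t, (s = a ∨ s = c) → (t = b ∨ t = d) → S.Y s ≤ y → y ≤ S.Y t →
      chi (S.F s t y) x = 1 := by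
    intro s t hs ht h1 h2
    exact if_pos (lt_of_le_of_ne (hcon s t hs ht) (hne s t hs ht h1 h2))
  have lab := S.lt _ _ h.ab
  have lcb := S.lt _ _ h.cb
  have lad := S.lt _ _ h.ad
  have lcd := S.lt _ _ h.cd
  have : S.g a c b d x y = 0 := by
    by_cases hs : S.Y a ≤ y ∧ S.Y c ≤ y
    · obtain ⟨ha, hc⟩ := hs
      have key : ∀ t, (t = b ∨ t = d) → S.N a c t x y = 0 := by
        intro t ht
        rcases le_total y (S.Y t) with h2 | h2
        · unfold N
          rw [h1 a t (Or.inl rfl) ht ha h2, h1 c t (Or.inr rfl) ht hc h2]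
          rfl
        · exact S.N_high (h.edge S (Or.inl rfl) ht) (h.edge S (Or.inr rfl) ht) h2
      unfold g
      rw [key b (Or.inl rfl), key d (Or.inr rfl)]
      rfl
    · have hlt : y < S.Y b ∧ y < S.Y d := by
        rcases not_and_or.1 hs with h' | h'
        · push Not at h'
          exact ⟨h'.trans lab, h'.trans lad⟩
        · push Not at h'
          exact ⟨h'.trans lcb, h'.trans lcd⟩
      have key : ∀ s, (s = a ∨ s = c) → chi (S.F s b y) x + chi (S.F s d y) x = 0 := by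
        intro s hs'
        rcases le_total (S.Y s) y with h2 | h2
        · rw [h1 s b hs' (Or.inl rfl) h2 hlt.1.le, h1 s d hs' (Or.inr rfl) h2 hlt.2.le]
          rfl
        · rw [S.low _ _ (h.edge S hs' (Or.inl rfl)) _ h2, S.low _ _ (h.edge S hs' (Or.inr rfl)) _ h2,
            z2]
      have e1 := key a (Or.inl rfl)
      have e2 := key c (Or.inr rfl)
      unfold g N
      linear_combination e1 + e2
  rw [this] at hg
  exact absurd hg (by decide)

theorem grow_up {a c b d : V} (h : S.Cyc a c b d) {x y : ℝ} (hg : S.g a c b d x y = 1) :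
    y < S.Y b ∨ y < S.Y d := by
  by_contra hcon
  push Not at hcon
  have : S.g a c b d x y = 0 := by
    unfold g
    rw [S.N_high h.ab h.cb hcon.1, S.N_high h.ad h.cd hcon.2]
    rfl
  rw [this] at hg
  exact absurd hg (by decide)

theorem grow_down {a c b d : V} (h : S.Cyc a c b d) {x y : ℝ} (hg : S.g a c b d x y = 1) :
    S.Y a < y ∨ S.Y c < y := by
  by_contra hcon
  push Not at hcon
  have : S.g a c b d x y = 0 := by
    unfold g N
    rw [S.low _ _ h.ab _ hcon.1, S.low _ _ h.ad _ hcon.1, S.low _ _ h.cb _ hcon.2,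
      S.low _ _ h.cd _ hcon.2]
    have q1 := z2 (chi (S.X a) x)
    have q2 := z2 (chi (S.X c) x)
    linear_combination q1 + q2
  rw [this] at hg
  exact absurd hg (by decide)

end Sys

end Pool.Agent.W139.BD
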