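import Mathlib
import Pool.Agent.W139.BDSys

/-!
A tower of 4-cycles: in every system of upward curves at least half of the cycles are nested.
-/

namespace Pool.Agent.W139.BD

namespace Sys

variable (S : Sys ℕ)

/-- The edges of the tower with `m` levels. Level `i` has the sources `5i`, `5i+1` and the sinks
`5i+2`, `5i+3`, `5i+4`. -/
structure Tower (m : ℕ) : Prop where
  ab : ∀ i < m, S.E (5 * i) (5 * i + 2)
  cb : ∀ i < m, S.E (5 * i + 1) (5 * i + 2)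
  ad : ∀ i < m, S.E (5 * i) (5 * i + 3)
  cd : ∀ i < m, S.E (5 * i + 1) (5 * i + 3)
  ae : ∀ i < m, S.E (5 * i) (5 * i + 4)
  ce : ∀ i < m, S.E (5 * i + 1) (5 * i + 4)
  ab' : ∀ i, i + 1 < m → S.E (5 * i) (5 * (i + 1) + 2)
  cd' : ∀ i, i + 1 < m → S.E (5 * i + 1) (5 * (i + 1) + 3)
  ae' : ∀ i, i + 1 < m → S.E (5 * (i + 1)) (5 * i + 4)

variable {S} {m : ℕ}

theorem Tower.cyc (T : S.Tower m) {i : ℕ} (hi : i < m) : S.Cyc (5 * i) (5 * i + 1) (5 * i + 2) (5 * i + 3) :=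
  ⟨T.ab i hi, T.cb i hi, T.ad i hi, T.cd i hi⟩

theorem Tower.cyc2 (T : S.Tower m) {i : ℕ} (hi : i < m) : S.Cyc (5 * i) (5 * i + 1) (5 * i + 2) (5 * i + 4) :=
  ⟨T.ab i hi, T.cb i hi, T.ae i hi, T.ce i hi⟩

theorem Tower.cyc3 (T : S.Tower m) {i : ℕ} (hi : i < m) : S.Cyc (5 * i) (5 * i + 1) (5 * i + 3) (5 * i + 4) :=
  ⟨T.ad i hi, T.cd i hi, T.ae i hi, T.ce i hi⟩

/-- all vertices of a level have the same parity with respect to a cycle of another level -/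
theorem Tower.level (T : S.Tower m) {i j p q : ℕ} (hj : j < m) (hij : i ≠ j)
    (hp : 5 * i + 2 ≤ p ∧ p ≤ 5 * i + 4) (hq : 5 * i + 2 ≤ q ∧ q ≤ 5 * i + 4)
    (hc : S.Cyc (5 * i) (5 * i + 1) p q) (r : ℕ) (hr : r ≤ 4) :
    S.I (5 * i) (5 * i + 1) p q (5 * j + r) = S.I (5 * i) (5 * i + 1) p q (5 * j) := by
  have e1 := S.I_edge hc (T.ab j hj) (by omega) (by omega) (by omega) (by omega)
  have e2 := S.I_edge hc (T.cb j hj) (by omega) (by omega) (by omega) (by omega)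
  have e3 := S.I_edge hc (T.ad j hj) (by omega) (by omega) (by omega) (by omega)
  have e4 := S.I_edge hc (T.ae j hj) (by omega) (by omega) (by omega) (by omega)
  interval_cases r
  · rfl
  · rw [e2, e1]
  · rw [e1]
  · rw [e3]
  · rw [e4]

/-- two consecutive levels have the same parity with respect to a cycle of another level -/
theorem Tower.next (T : S.Tower m) {i j p q : ℕ} (hj : j + 1 < m) (hij : i ≠ j) (hij' : i ≠ j + 1)
    (hp : 5 * i + 2 ≤ p ∧ p ≤ 5 * i + 4) (hq : 5 * i + 2 ≤ q ∧ q ≤ 5 * i + 4)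
    (hc : S.Cyc (5 * i) (5 * i + 1) p q) :
    S.I (5 * i) (5 * i + 1) p q (5 * j) = S.I (5 * i) (5 * i + 1) p q (5 * (j + 1)) := by
  have e1 := S.I_edge hc (T.ab' j hj) (by omega) (by omega) (by omega) (by omega)
  rw [e1, T.level hj hij' hp hq hc 2 (by norm_num)]

/-- the parity of the lower levels with respect to the cycle of level `i` -/
noncomputable def sg (S : Sys ℕ) (i : ℕ) : ZMod 2 :=
  S.I (5 * i) (5 * i + 1) (5 * i + 2) (5 * i + 3) (5 * (i - 1))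

/-- the parity with respect to the cycle of level `i` -/
noncomputable def J (S : Sys ℕ) (i w : ℕ) : ZMod 2 :=
  S.I (5 * i) (5 * i + 1) (5 * i + 2) (5 * i + 3) w

theorem Tower.below (T : S.Tower m) {i : ℕ} (hi : i < m) (k : ℕ) (hk : k + 1 ≤ i) :
    S.J i (5 * (i - 1 - k)) = S.sg i := by
  induction k with
  | zero => rfl
  | succ k ih =>
    rw [← ih (by omega)]
    have := T.next (i := i) (j := i - 1 - (k + 1)) (p := 5 * i + 2) (q := 5 * i + 3) (by omega)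
      (by omega) (by omega) (by omega) (by omega) (T.cyc hi)
    have h2 : i - 1 - (k + 1) + 1 = i - 1 - k := by omega
    rw [h2] at this
    exact this

theorem Tower.lower (T : S.Tower m) {i j : ℕ} (hi : i < m) (hj : j < i) (r : ℕ) (hr : r ≤ 4) :
    S.J i (5 * j + r) = S.sg i := by
  have h1 := T.below hi (i - 1 - j) (by omega)
  have h2 : i - 1 - (i - 1 - j) = j := by omega
  rw [h2] at h1
  rw [← h1]
  exact T.level (by omega) (by omega) (by omega) (by omega) (T.cyc hi) r hr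

theorem Tower.sep (T : S.Tower m) {i : ℕ} (hi0 : 1 ≤ i) (hi : i < m) :
    S.J i (5 * i + 4) = 1 + S.sg i := by
  obtain ⟨j, rfl⟩ : ∃ j, i = j + 1 := ⟨i - 1, by omega⟩
  have h1 := S.separate (a := 5 * (j + 1)) (c := 5 * (j + 1) + 1) (b := 5 * (j + 1) + 2)
    (d := 5 * (j + 1) + 3) (e := 5 * (j + 1) + 4) (k := 5 * j) (l := 5 * j + 1)
    (by omega) (by omega) (by omega) (by omega) (T.cyc hi) (T.cyc2 hi) (T.cyc3 hi)
    (T.ab' j hi) (T.cd' j hi) (by omega) (by omega) (by omega) (by omega)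
    (T.level (by omega) (by omega) (by omega) (by omega) (T.cyc hi) 1 (by norm_num)).symm
    (T.level (by omega) (by omega) (by omega) (by omega) (T.cyc2 hi) 1 (by norm_num)).symm
  have h2 : S.sg (j + 1) = S.I (5 * (j + 1)) (5 * (j + 1) + 1) (5 * (j + 1) + 2) (5 * (j + 1) + 3)
    (5 * j) := rfl
  have h3 : S.J (j + 1) (5 * (j + 1) + 4) = S.I (5 * (j + 1)) (5 * (j + 1) + 1) (5 * (j + 1) + 2)
    (5 * (j + 1) + 3) (5 * (j + 1) + 4) := rfl
  rw [h2, h3]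
  have h4 := z2 (S.I (5 * (j + 1)) (5 * (j + 1) + 1) (5 * (j + 1) + 2) (5 * (j + 1) + 3) (5 * j))
  linear_combination h1 - h4

theorem Tower.above (T : S.Tower m) {i : ℕ} (hi0 : 1 ≤ i) (k : ℕ) (hk : i + 1 + k < m) :
    S.J i (5 * (i + 1 + k)) = 1 + S.sg i := by
  have hi : i < m := by omega
  induction k with
  | zero =>
    rw [← T.sep hi0 hi]
    exact S.I_edge (T.cyc hi) (T.ae' i (by omega)) (by omega) (by omega) (by omega) (by omega)
  | succ k ih =>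
    rw [← ih (by omega)]
    have h5 := T.next (i := i) (j := i + 1 + k) (p := 5 * i + 2) (q := 5 * i + 3) (by omega)
      (by omega) (by omega) (by omega) (by omega) (T.cyc hi)
    exact h5.symm

theorem Tower.upper (T : S.Tower m) {i j : ℕ} (hi0 : 1 ≤ i) (hj : i < j) (hjm : j < m) (r : ℕ)
    (hr : r ≤ 4) : S.J i (5 * j + r) = 1 + S.sg i := by
  have h1 := T.above hi0 (j - (i + 1)) (by omega)
  have h2 : i + 1 + (j - (i + 1)) = j := by omega
  rw [h2] at h1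
  rw [← h1]
  exact T.level (by omega) (by omega) (by omega) (by omega) (T.cyc (by omega)) r hr

/-- `p` is a corner of the drawing of the cycle of level `i` -/
def Pt (S : Sys ℕ) (i : ℕ) (p : ℤ × ℤ) : Prop :=
  ∃ s t, (s = 5 * i ∨ s = 5 * i + 1) ∧ (t = 5 * i + 2 ∨ t = 5 * i + 3) ∧ p ∈ S.pts s t

theorem Tower.grow (T : S.Tower m) {i j : ℕ} (hi : i < m) (hj : j < m) (hij : i ≠ j)
    (hJ : ∀ r ≤ 4, S.J i (5 * j + r) = 1) {p : ℤ × ℤ} (hp : S.Pt j p) :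
    (∃ q, S.Pt i q ∧ q.1 < p.1) ∧ (∃ q, S.Pt i q ∧ p.1 < q.1) ∧ (∃ q, S.Pt i q ∧ q.2 < p.2) ∧
      (∃ q, S.Pt i q ∧ p.2 < q.2) := by
  obtain ⟨u, v, hu, hv, hpuv⟩ := hp
  have hE := (T.cyc hj).edge S hu hv
  have hC := T.cyc hi
  obtain ⟨p1, p2, p3⟩ := S.pmem u v hE p hpuv
  have ua : u ≠ 5 * i := by omega
  have uc : u ≠ 5 * i + 1 := by omega
  have vb : v ≠ 5 * i + 2 := by omega
  have vd : v ≠ 5 * i + 3 := by omega
  have hlt := S.lt _ _ hE
  have hg : S.g (5 * i) (5 * i + 1) (5 * i + 2) (5 * i + 3) p.1 p.2 = 1 := by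
    have h1 := S.g_edge hC hE ua uc vb vd (y := p.2) (z := S.Y u) ⟨p1, p2⟩ ⟨le_refl _, hlt.le⟩
    rw [p3, S.low _ _ hE _ le_rfl] at h1
    rw [h1]
    obtain ⟨r, hr, hur⟩ : ∃ r, r ≤ 4 ∧ u = 5 * j + r := by
      rcases hu with h | h
      · exact ⟨0, by norm_num, h⟩
      · exact ⟨1, by norm_num, h⟩
    have := hJ r hr
    rw [← hur] at this
    exact this
  have hne : ∀ s t, (s = 5 * i ∨ s = 5 * i + 1) → (t = 5 * i + 2 ∨ t = 5 * i + 3) →
      S.Y s ≤ p.2 → p.2 ≤ S.Y t → S.F s t p.2 ≠ p.1 := by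
    intro s t hs ht h1 h2 he
    have hst := hC.edge S hs ht
    rcases S.ne s t u v hst hE (Or.inl (by omega)) p.2 h1 h2 p1 p2 (by rw [he, p3]) with h3 | h3
    · omega
    · omega
  refine ⟨?_, ?_, ?_, ?_⟩
  · obtain ⟨s, t, hs, ht, h⟩ := S.grow_left hg
    obtain ⟨q, hq, hq2⟩ := S.ple s t (hC.edge S hs ht) p.2
    exact ⟨q, ⟨s, t, hs, ht, hq⟩, by exact_mod_cast lt_of_le_of_lt hq2 h⟩
  · obtain ⟨s, t, hs, ht, h⟩ := S.grow_right hC hg hne
    obtain ⟨q, hq, hq2⟩ := S.pge s t (hC.edge S hs ht) p.2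
    exact ⟨q, ⟨s, t, hs, ht, hq⟩, by exact_mod_cast lt_of_lt_of_le h hq2⟩
  · rcases S.grow_down hC hg with h | h
    · obtain ⟨q, hq, hq2⟩ := S.pbot _ _ hC.ab
      rw [← hq2] at h
      exact ⟨q, ⟨_, _, Or.inl rfl, Or.inl rfl, hq⟩, by exact_mod_cast h⟩
    · obtain ⟨q, hq, hq2⟩ := S.pbot _ _ hC.cb
      rw [← hq2] at h
      exact ⟨q, ⟨_, _, Or.inr rfl, Or.inl rfl, hq⟩, by exact_mod_cast h⟩
  · rcases S.grow_up hC hg with h | h
    · obtain ⟨q, hq, hq2⟩ := S.ptop _ _ hC.ab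
      rw [← hq2] at h
      exact ⟨q, ⟨_, _, Or.inl rfl, Or.inl rfl, hq⟩, by exact_mod_cast h⟩
    · obtain ⟨q, hq, hq2⟩ := S.ptop _ _ hC.ad
      rw [← hq2] at h
      exact ⟨q, ⟨_, _, Or.inl rfl, Or.inr rfl, hq⟩, by exact_mod_cast h⟩

/-- no two cycles lie inside each other -/
theorem Tower.mono (T : S.Tower m) {i j : ℕ} (hi0 : 1 ≤ i) (hij : i < j) (hj : j < m)
    (h0 : S.sg i = 0) : S.sg j = 0 := by
  by_contra h1
  have h1 : S.sg j = 1 := (z2_cases _).resolve_left h1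
  have hi : i < m := by omega
  -- level j is inside the cycle i
  have a1 := T.upper hi0 hij hj
  have a2 := fun r hr => T.lower (r := r) hj hij hr
  have b1 : ∀ r ≤ 4, S.J i (5 * j + r) = 1 := by
    intro r hr; rw [a1 r hr, h0, add_zero]
  have b2 : ∀ r ≤ 4, S.J j (5 * i + r) = 1 := by
    intro r hr; rw [a2 r hr, h1]
  -- compare the tops
  have top : ∀ {i j : ℕ}, i < m → (∀ r ≤ 4, S.J i (5 * j + r) = 1) →
      max (S.Y (5 * j + 2)) (S.Y (5 * j + 3)) < max (S.Y (5 * i + 2)) (S.Y (5 * i + 3)) := by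
    intro i j hi h
    apply max_lt
    · rcases S.grow_up (T.cyc hi) (h 2 (by norm_num)) with h | h
      · exact lt_of_lt_of_le h (le_max_left _ _)
      · exact lt_of_lt_of_le h (le_max_right _ _)
    · rcases S.grow_up (T.cyc hi) (h 3 (by norm_num)) with h | h
      · exact lt_of_lt_of_le h (le_max_left _ _)
      · exact lt_of_lt_of_le h (le_max_right _ _)
  exact lt_asymm (top hi b1) (top hj b2)

theorem Tower.pt (T : S.Tower m) {i : ℕ} (hi : i < m) : ∃ p, S.Pt i p := by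
  obtain ⟨q, hq, -⟩ := S.ptop _ _ (T.ab i hi)
  exact ⟨q, _, _, Or.inl rfl, Or.inl rfl, hq⟩

/-- a nested chain of levels `f 0, f 1, …, f k` has width and height at least `2 k` -/
theorem Tower.chain (T : S.Tower m) (f : ℕ → ℕ) (k : ℕ) (hf : ∀ i ≤ k, f i < m)
    (hne : ∀ i < k, f (i + 1) ≠ f i) (hJ : ∀ i < k, ∀ r ≤ 4, S.J (f (i + 1)) (5 * f i + r) = 1)
    {x₀ y₀ : ℤ} {W H : ℕ} (hbox : ∀ i < m, ∀ p, S.Pt i p → x₀ ≤ p.1 ∧ p.1 ≤ x₀ + W ∧ y₀ ≤ p.2 ∧
      p.2 ≤ y₀ + H) : 2 * k ≤ W ∧ 2 * k ≤ H := by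
  obtain ⟨p, hp⟩ := T.pt (hf 0 (Nat.zero_le _))
  have key : ∀ i ≤ k, (∃ q, S.Pt (f i) q ∧ q.1 + i ≤ p.1) ∧ (∃ q, S.Pt (f i) q ∧ p.1 + i ≤ q.1) ∧
      (∃ q, S.Pt (f i) q ∧ q.2 + i ≤ p.2) ∧ (∃ q, S.Pt (f i) q ∧ p.2 + i ≤ q.2) := by
    intro i hi
    induction i with
    | zero =>
      refine ⟨⟨p, hp, ?_⟩, ⟨p, hp, ?_⟩, ⟨p, hp, ?_⟩, ⟨p, hp, ?_⟩⟩ <;> simp
    | succ i ih =>
      obtain ⟨⟨q1, a1, b1⟩, ⟨q2, a2, b2⟩, ⟨q3, a3, b3⟩, ⟨q4, a4, b4⟩⟩ := ih (by omega)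
      have h1 := hf (i + 1) hi
      have h2 := hf i (by omega)
      have h3 := hne i (by omega)
      have h4 := hJ i (by omega)
      obtain ⟨r1, c1, d1⟩ := (T.grow h1 h2 h3 h4 a1).1
      obtain ⟨r2, c2, d2⟩ := (T.grow h1 h2 h3 h4 a2).2.1
      obtain ⟨r3, c3, d3⟩ := (T.grow h1 h2 h3 h4 a3).2.2.1
      obtain ⟨r4, c4, d4⟩ := (T.grow h1 h2 h3 h4 a4).2.2.2
      refine ⟨⟨r1, c1, ?_⟩, ⟨r2, c2, ?_⟩, ⟨r3, c3, ?_⟩, ⟨r4, c4, ?_⟩⟩ <;> push_cast <;> omega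
  obtain ⟨⟨q1, a1, b1⟩, ⟨q2, a2, b2⟩, ⟨q3, a3, b3⟩, ⟨q4, a4, b4⟩⟩ := key k le_rfl
  have hk := hf k le_rfl
  have e1 := hbox _ hk _ a1
  have e2 := hbox _ hk _ a2
  have e3 := hbox _ hk _ a3
  have e4 := hbox _ hk _ a4
  omega

theorem Tower.box (T : S.Tower m) {x₀ y₀ : ℤ} {W H : ℕ}
    (hbox : ∀ i < m, ∀ p, S.Pt i p → x₀ ≤ p.1 ∧ p.1 ≤ x₀ + W ∧ y₀ ≤ p.2 ∧ p.2 ≤ y₀ + H) :
    m - 2 ≤ W ∧ m - 2 ≤ H := by
  rcases Nat.lt_or_ge m 1 with hm | hm
  · omega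
  obtain ⟨k, hkm, hk1, hk2⟩ : ∃ k < m, (∀ i, 1 ≤ i → i ≤ k → S.sg i = 1) ∧
      (∀ i, k < i → i < m → S.sg i = 0) := by
    classical
    by_cases h : ∃ i, 1 ≤ i ∧ i < m ∧ S.sg i = 0
    · obtain ⟨h1, h2, h3⟩ := Nat.find_spec h
      refine ⟨Nat.find h - 1, by omega, ?_, ?_⟩
      · intro i hi0 hi
        have := Nat.find_min h (m := i) (by omega)
        rcases z2_cases (S.sg i) with h4 | h4
        · exact absurd ⟨hi0, by omega, h4⟩ this
        · exact h4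
      · intro i hi him
        rcases Nat.lt_or_ge (Nat.find h) i with h4 | h4
        · exact T.mono h1 h4 him h3
        · have : i = Nat.find h := by omega
          rw [this]
          exact h3
    · refine ⟨m - 1, by omega, ?_, ?_⟩
      · intro i hi0 hi
        rcases z2_cases (S.sg i) with h4 | h4
        · exact absurd ⟨i, hi0, by omega, h4⟩ h
        · exact h4
      · intro i hi him
        omega
  -- the increasing chain 0, 1, …, k
  have c1 := T.chain (fun i => i) k (fun i hi => by omega) (fun i hi => by omega)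
    (fun i hi r hr => by
      have := T.lower (i := i + 1) (j := i) (by omega) (by omega) r hr
      rw [hk1 (i + 1) (by omega) (by omega)] at this
      exact this) hbox
  -- the decreasing chain m - 1, …, k + 1
  have c2 := T.chain (fun i => m - 1 - i) (m - 2 - k) (fun i hi => by omega) (fun i hi => by
      show m - 1 - (i + 1) ≠ m - 1 - i
      omega)
    (fun i hi r hr => by
      show S.J (m - 1 - (i + 1)) (5 * (m - 1 - i) + r) = 1
      have := T.upper (i := m - 1 - (i + 1)) (j := m - 1 - i) (by omega) (by omega) (by omega) r hr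
      rw [this, hk2 _ (by omega) (by omega), add_zero]) hbox
  omega

end Sys

end Pool.Agent.W139.BD
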